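import Pool.Agent.MP_317377_al.Final

/-! There is a group of spread exactly one. -/

namespace Pool.Agent.Results.MP_317377_al.SpreadOne

open Pool.Agent.MP_317377_al

/-- The group `G` is `k`-spread: for all nontrivial `x₁, …, x_k` there is `y` such that
`⟨x_i, y⟩ = G` for every `i`. -/
def IsKSpread (G : Type) [Group G] (k : ℕ) : Prop :=
  ∀ x : Fin k → G, (∀ i, x i ≠ 1) → ∃ y : G, ∀ i, Subgroup.closure {x i, y} = ⊤

/-- The spread of `G` is the natural number `k`, that is, `k` is the largest natural number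
for which `G` is `k`-spread. -/
def HasSpread (G : Type) [Group G] (k : ℕ) : Prop :=
  IsGreatest {j : ℕ | IsKSpread G j} k

/-- the subgroup of integer translations -/
def N : Subgroup GG := (Subgroup.zpowers tau).subgroupOf GG

theorem mem_N {g : GG} : g ∈ N ↔ ∃ n : ℤ, (g : Equiv.Perm ℝ) = tau ^ n := by
  rw [N, Subgroup.mem_subgroupOf, Subgroup.mem_zpowers_iff]
  exact ⟨fun ⟨n, h⟩ => ⟨n, h.symm⟩, fun ⟨n, h⟩ => ⟨n, h.symm⟩⟩

instance : N.Normal := by
  refine ⟨fun n hn g => ?_⟩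
  obtain ⟨k, hk⟩ := mem_N.1 hn
  obtain ⟨ε, -, hε⟩ := GG.shift g.2
  rw [mem_N]
  refine ⟨ε * k, ?_⟩
  ext t
  have e := hε k ((g : Equiv.Perm ℝ)⁻¹ t)
  rw [ai] at e
  rw [tau_zpow, ← e]
  simp only [Subgroup.coe_mul, Subgroup.coe_inv, Equiv.Perm.mul_apply, hk, tau_zpow]

theorem le_of_closure_eq_top {x y : GG} {S : Subgroup (Equiv.Perm ℝ)}
    (hx : (x : Equiv.Perm ℝ) ∈ S) (hy : (y : Equiv.Perm ℝ) ∈ S) (ht : tau ∈ S)
    (h : Subgroup.closure {(x : GG ⧸ N), (y : GG ⧸ N)} = ⊤) : GG ≤ S := by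
  have h1 : Subgroup.closure {(x : GG ⧸ N), (y : GG ⧸ N)} ≤
      (S.subgroupOf GG).map (QuotientGroup.mk' N) := by
    rw [Subgroup.closure_le]
    rintro z (rfl | rfl)
    · exact ⟨x, hx, rfl⟩
    · exact ⟨y, hy, rfl⟩
  intro g hg
  have h2 : ((⟨g, hg⟩ : GG) : GG ⧸ N) ∈ (S.subgroupOf GG).map (QuotientGroup.mk' N) :=
    h1 (by rw [h]; trivial)
  obtain ⟨s, hs, hsg⟩ := h2
  have h3 : s⁻¹ * ⟨g, hg⟩ ∈ N := QuotientGroup.eq.1 hsg
  obtain ⟨n, hn⟩ := mem_N.1 h3
  have h4 : g = (s : Equiv.Perm ℝ) * tau ^ n := by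
    rw [← hn]; simp
  rw [h4]
  exact S.mul_mem hs (S.zpow_mem ht n)

/-- the stabiliser of the class of `p` -/
def St (p : ℝ) : Subgroup (Equiv.Perm ℝ) where
  carrier := {f | f ∈ GG ∧ ∃ n : ℤ, f p = p + n}
  mul_mem' := by
    rintro f g ⟨hf, n, hn⟩ ⟨hg, m, hm⟩
    refine ⟨GG.mul_mem hf hg, ?_⟩
    obtain ⟨ε, -, hε⟩ := GG.shift hf
    refine ⟨n + ε * m, ?_⟩
    rw [Equiv.Perm.mul_apply, hm, hε, hn]
    push_cast; ring
  one_mem' := ⟨GG.one_mem, 0, by simp⟩
  inv_mem' := by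
    rintro f ⟨hf, n, hn⟩
    refine ⟨GG.inv_mem hf, ?_⟩
    obtain ⟨ε, hε1, hε⟩ := GG.shift hf
    refine ⟨-(ε * n), ?_⟩
    rw [Equiv.Perm.inv_eq_iff_eq, hε, hn]
    rcases hε1 with rfl | rfl <;> push_cast <;> ring

theorem not_top {x y : GG} (hx : (x : Equiv.Perm ℝ) ∈ TP) (p : ℝ)
    (hxp : (x : Equiv.Perm ℝ) p = p) (hy : (y : Equiv.Perm ℝ) p = p) :
    Subgroup.closure {(x : GG ⧸ N), (y : GG ⧸ N)} ≠ ⊤ := by
  intro h
  have h1 := le_of_closure_eq_top (S := St p) ⟨x.2, 0, by rw [hxp]; simp⟩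
    ⟨y.2, 0, by rw [hy]; simp⟩ ⟨TP_le_GG tau_mem_TP, 1, by simp⟩ h
  obtain ⟨-, n, hn⟩ := h1 (TP_le_GG (trans_mem half_dy))
  rw [aff_apply] at hn
  have h2 : (n : ℝ) = 1 / 2 := by simp at hn; linarith
  have h3 : ((2 * n : ℤ) : ℝ) = (1 : ℤ) := by push_cast; rw [h2]; norm_num
  have h4 : 2 * n = 1 := by exact_mod_cast h3
  omega

theorem not_top' {x y : GG} (hx : (x : Equiv.Perm ℝ) ∈ TP) (hy : (y : Equiv.Perm ℝ) ∈ TP) :
    Subgroup.closure {(x : GG ⧸ N), (y : GG ⧸ N)} ≠ ⊤ := by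
  intro h
  have h1 := le_of_closure_eq_top (S := TP) hx hy tau_mem_TP h
  have h2 := (h1 Ng_mem).1.1 (show (0 : ℝ) < 1 by norm_num)
  simp at h2
  linarith

theorem xi_quarter (a : ℝ) (ha : Dy a) : xi a (-1) (a + 1 / 8) = a + 1 / 4 := by
  have h := (xi_spec ha (by norm_num : (-1 : ℤ) ≤ 0)).2 (1 / 4) (by norm_num)
    (by norm_num)
  rw [x0_a (by norm_num) le_rfl] at h
  norm_num at h ⊢
  exact h

/-- **There is a group of spread exactly one.** -/
theorem result : ∃ (G : Type) (_ : Group G), HasSpread G 1 := by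
  refine ⟨GG ⧸ N, inferInstance, ?_, ?_⟩
  · -- one-spread
    intro X hX
    obtain ⟨x, hx⟩ := QuotientGroup.mk_surjective (X 0)
    have hxt : ∀ n : ℤ, (x : Equiv.Perm ℝ) ≠ tau ^ n := by
      intro n hn
      apply hX 0
      rw [← hx, QuotientGroup.eq_one_iff]
      exact mem_N.2 ⟨n, hn⟩
    obtain ⟨y, hy, hle⟩ := exists_mate x.2 hxt
    refine ⟨((⟨y, hy⟩ : GG) : GG ⧸ N), fun i => ?_⟩
    have hi : i = 0 := Subsingleton.elim _ _
    rw [hi, ← hx, eq_top_iff]
    intro g _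
    obtain ⟨f, rfl⟩ := QuotientGroup.mk_surjective g
    have hf := hle f.2
    have key : ∀ h ∈ Subgroup.closure {(x : Equiv.Perm ℝ), y, tau}, ∀ hG : h ∈ GG,
        ((⟨h, hG⟩ : GG) : GG ⧸ N) ∈
          Subgroup.closure {(x : GG ⧸ N), ((⟨y, hy⟩ : GG) : GG ⧸ N)} := by
      have hle2 : Subgroup.closure {(x : Equiv.Perm ℝ), y, tau} ≤ GG := by
        rw [Subgroup.closure_le]
        rintro z (rfl | rfl | rfl)
        · exact x.2
        · exact hy
        · exact TP_le_GG tau_mem_TP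
      intro h hh
      induction hh using Subgroup.closure_induction with
      | mem z hz =>
        intro hG
        rcases hz with rfl | rfl | rfl
        · exact Subgroup.subset_closure (Or.inl rfl)
        · exact Subgroup.subset_closure (Or.inr rfl)
        · have : ((⟨tau, hG⟩ : GG) : GG ⧸ N) = 1 := by
            rw [QuotientGroup.eq_one_iff]; exact mem_N.2 ⟨1, by simp⟩
          rw [this]; exact Subgroup.one_mem _
      | one =>
        intro hG
        exact Subgroup.one_mem _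
      | mul a b ha hb iha ihb =>
        intro hG
        exact Subgroup.mul_mem _ (iha (hle2 ha)) (ihb (hle2 hb))
      | inv a ha iha =>
        intro hG
        exact Subgroup.inv_mem _ (iha (hle2 ha))
    exact key _ hf f.2
  · -- not two-spread
    intro k hk
    by_contra hcon
    rw [not_le] at hcon
    have hne : ∀ a, Dy a → ∀ h : xi a (-1) ∈ GG, ((⟨xi a (-1), h⟩ : GG) : GG ⧸ N) ≠ 1 := by
      intro a ha h h1
      rw [QuotientGroup.eq_one_iff] at h1
      obtain ⟨n, hn⟩ := mem_N.1 h1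
      change xi a (-1) = tau ^ n at hn
      have e1 : xi a (-1) a = a := rist_fix_c (d := a + 2 ^ (-1 : ℤ)) (by norm_num)
        (xi_mem_rist ha (by norm_num) le_rfl le_rfl)
      have e2 := xi_quarter a ha
      rw [hn, tau_zpow] at e1 e2
      linarith
    have m1 : xi 0 (-1) ∈ rist 0 (1 / 2) := s_mem
    have m2 : xi (1 / 2) (-1) ∈ rist (1 / 2) 1 :=
      xi_mem_rist half_dy (by norm_num) le_rfl (by norm_num)
    have g1 : xi 0 (-1) ∈ GG := TP_le_GG m1.1
    have g2 : xi (1 / 2) (-1) ∈ GG := TP_le_GG m2.1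
    obtain ⟨Y, hY⟩ := hk (fun i => if (i : ℕ) = 0 then ((⟨xi 0 (-1), g1⟩ : GG) : GG ⧸ N)
      else ((⟨xi (1 / 2) (-1), g2⟩ : GG) : GG ⧸ N)) (fun i => by
        change (if (i : ℕ) = 0 then _ else _) ≠ _
        split_ifs
        · exact hne 0 Dy.zero g1
        · exact hne (1 / 2) half_dy g2)
    have h1 := hY ⟨0, by omega⟩
    have h2 := hY ⟨1, by omega⟩
    simp only [if_true] at h1
    simp only [one_ne_zero, if_false] at h2
    obtain ⟨y, rfl⟩ := QuotientGroup.mk_surjective Y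
    rcases y.2 with hy | hy
    · exact not_top' (x := ⟨xi 0 (-1), g1⟩) m1.1 hy h1
    · obtain ⟨p, hp⟩ := rev_fixed hy
      by_cases hc : xi 0 (-1) p = p
      · exact not_top (x := ⟨xi 0 (-1), g1⟩) m1.1 p hc hp h1
      · by_cases hc' : xi (1 / 2) (-1) p = p
        · exact not_top (x := ⟨xi (1 / 2) (-1), g2⟩) m2.1 p hc' hp h2
        · obtain ⟨n, n1, n2⟩ := rist_moves (by norm_num) m1 hc
          obtain ⟨m, k1, k2⟩ := rist_moves (by norm_num) m2 hc'
          have l1 : (n : ℝ) < m + 1 := by linarith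
          have l2 : (m : ℝ) < n + 1 := by linarith
          have l3 : n < m + 1 := by exact_mod_cast l1
          have l4 : m < n + 1 := by exact_mod_cast l2
          have l5 : n = m := by omega
          subst l5
          linarith

end Pool.Agent.Results.MP_317377_al.SpreadOne
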